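import Mathlib

set_option autoImplicit false

namespace Pool.Agent.Results.MP_cb2a9f_co.FinitaryOrCofinitary

open Set Matroid

universe u

variable {S : Type u}

/-- `(W, I)` is a pre-independence space (`I` is a family of subsets of `W`). -/
def IsPreindep (W : Set S) (I : Set (Set S)) : Prop :=
  (∀ X ∈ I, X ⊆ W) ∧ ∅ ∈ I ∧ (∀ X ∈ I, ∀ Y, Y ⊆ X → Y ∈ I) ∧
    ∀ X ∈ I, ∀ Y ∈ I, X.Finite → Y.Finite → X.ncard < Y.ncard → ∃ e ∈ Y \ X, insert e X ∈ I

/-- `(W, I)` is an independence space: a pre-independence space of finite character. -/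
def IsIndepSpace (W : Set S) (I : Set (Set S)) : Prop :=
  IsPreindep W I ∧ ∀ Y, Y ⊆ W → (∀ X, X ⊆ Y → X.Finite → X ∈ I) → Y ∈ I

/-- The maximal members of `{Y ∈ I : Y ⊆ X}`. -/
def maxIn (I : Set (Set S)) (X : Set S) : Set (Set S) :=
  {B | Maximal (fun Y => Y ∈ I ∧ Y ⊆ X) B}

/-- `(W, I)` is a B-matroid. -/
def IsBMatroid (W : Set S) (I : Set (Set S)) : Prop :=
  (∀ X ∈ I, X ⊆ W) ∧ ∅ ∈ I ∧ (∀ X ∈ I, ∀ Y, Y ⊆ X → Y ∈ I) ∧
    ∀ X, X ⊆ W →
      (∀ T ∈ I, T ⊆ X → ∃ B ∈ maxIn I X, T ⊆ B) ∧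
      (∀ B₁ ∈ maxIn I X, ∀ B₂ ∈ maxIn I X, ∀ x ∈ B₁ \ B₂,
        ∃ y ∈ B₂ \ B₁, (B₁ \ {x}) ∪ {y} ∈ maxIn I X)

/-- A basis of `I`: a maximal member of `I`. -/
def IsBasisOf (I : Set (Set S)) (B : Set S) : Prop := Maximal (fun Y => Y ∈ I) B

/-- The restriction `I | Z`. -/
def restr (I : Set (Set S)) (Z : Set S) : Set (Set S) := {Y | Y ∈ I ∧ Y ⊆ Z}

/-- The contraction `I . Z`, computed with the basis `B` of `I | (W \ Z)`. -/
def contr (I : Set (Set S)) (Z B : Set S) : Set (Set S) := {Y | Y ⊆ Z ∧ Y ∪ B ∈ I}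

/-- The dual `I*` of a family on `W`. -/
def dual (W : Set S) (I : Set (Set S)) : Set (Set S) :=
  {X | X ⊆ W ∧ ∃ B, IsBasisOf I B ∧ B ⊆ W \ X}

/-- `D` is an admissible system on `S`: each `D W` is a set of pre-independence spaces on `W`,
closed under restriction, under (well-defined) contraction and under duality, and duality is an
involution. -/
def IsAdmissible (D : Set S → Set (Set (Set S))) : Prop :=
  (∀ W, ∀ I ∈ D W, IsPreindep W I) ∧
  (∀ W Z, Z ⊆ W → ∀ I ∈ D W, restr I Z ∈ D Z ∧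
    (∃ B, IsBasisOf (restr I (W \ Z)) B) ∧
    (∀ B B', IsBasisOf (restr I (W \ Z)) B → IsBasisOf (restr I (W \ Z)) B' →
      contr I Z B = contr I Z B') ∧
    (∀ B, IsBasisOf (restr I (W \ Z)) B → contr I Z B ∈ D Z)) ∧
  (∀ W, ∀ I ∈ D W, dual W I ∈ D W ∧ dual W (dual W I) = I)

/-- The system of all matroids which are finitary or cofinitary. -/
def sys (W : Set S) : Set (Set (Set S)) :=
  {I | ∃ M : Matroid S, M.E = W ∧ I = {X | M.Indep X} ∧ (M.Finitary ∨ M✶.Finitary)}

theorem isBasisOf_iff (M : Matroid S) (X B : Set S) (hX : X ⊆ M.E) :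
    IsBasisOf (restr {X | M.Indep X} X) B ↔ M.IsBasis B X := by
  unfold IsBasisOf restr
  rw [Matroid.isBasis_iff']
  constructor
  · intro h
    refine ⟨⟨h.prop.1, h.prop.2, ?_⟩, hX⟩
    intro Y hY hBY hYX
    exact subset_antisymm hBY (h.2 (show Y ∈ {Y | Y ∈ {X | M.Indep X} ∧ Y ⊆ X} from ⟨hY, hYX⟩) hBY)
  · rintro ⟨⟨h1, h2, h3⟩, -⟩
    refine ⟨⟨h1, h2⟩, fun Y hY hBY => ?_⟩
    exact (h3 hY.1 hBY hY.2).symm.subset

theorem dual_eq (M : Matroid S) : dual M.E {X | M.Indep X} = {X | M✶.Indep X} := by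
  ext X
  unfold dual IsBasisOf
  simp only [mem_ofPred_eq]
  rw [dual_indep_iff_exists']
  refine and_congr_right fun hX => exists_congr fun B => ?_
  rw [isBase_iff_maximal_indep]
  constructor
  · rintro ⟨h1, h2⟩
    refine ⟨h1, ?_⟩
    rw [Set.disjoint_left]
    intro x hx hxB
    exact (h2 hxB).2 hx
  · rintro ⟨h1, h2⟩
    refine ⟨h1, fun x hx => ⟨h1.prop.subset_ground hx, fun hxX => ?_⟩⟩
    exact (Set.disjoint_left.1 h2) hxX hx

theorem preindep (M : Matroid S) : IsPreindep M.E {X | M.Indep X} := by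
  refine ⟨fun X hX => Indep.subset_ground hX, M.empty_indep, fun X hX Y hY => Indep.subset hX hY,
    ?_⟩
  intro X hX Y hY hXf hYf hlt
  have h1 : X.encard < Y.encard := by
    rw [← hXf.cast_ncard_eq, ← hYf.cast_ncard_eq]
    exact_mod_cast hlt
  exact Indep.augment hX hY h1

theorem sys_admissible : IsAdmissible (sys (S := S)) := by
  refine ⟨?_, ?_, ?_⟩
  · rintro W I ⟨M, rfl, rfl, -⟩
    exact preindep M
  · rintro W Z hZ I ⟨M, rfl, rfl, hfin⟩
    have hres : restr {X | M.Indep X} Z = {X | (M ↾ Z).Indep X} := by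
      ext X
      simp [restr, restrict_indep_iff]
    have hcontr : ∀ B, M.IsBasis B (M.E \ Z) →
        contr {X | M.Indep X} Z B = {X | (M ／ (M.E \ Z)).Indep X} := by
      intro B hB
      ext X
      simp only [contr, mem_ofPred_eq]
      rw [hB.contract_indep_iff]
      constructor
      · rintro ⟨h1, h2⟩
        refine ⟨h2, ?_⟩
        rw [Set.disjoint_left]
        intro x hx hxX
        exact hx.2 (h1 hxX)
      · rintro ⟨h1, h2⟩
        refine ⟨fun x hx => ?_, h1⟩
        by_contra hxZ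
        have hxE : x ∈ M.E := h1.subset_ground (Or.inl hx)
        exact (Set.disjoint_left.1 h2) ⟨hxE, hxZ⟩ hx
    have hsub : M.E \ Z ⊆ M.E := sdiff_subset
    refine ⟨⟨M ↾ Z, rfl, hres, ?_⟩, ?_, ?_, ?_⟩
    · have hdel : M ↾ Z = M ＼ (M.E \ Z) := by
        rw [← restrict_compl, sdiff_sdiff_cancel_left hZ]
      rcases hfin with h | h
      · left
        infer_instance
      · right
        rw [hdel, dual_delete]
        infer_instance
    · obtain ⟨B, hB⟩ := M.exists_isBasis (M.E \ Z)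
      exact ⟨B, (isBasisOf_iff M _ _ hsub).2 hB⟩
    · intro B B' hB hB'
      rw [isBasisOf_iff M _ _ hsub] at hB hB'
      rw [hcontr B hB, hcontr B' hB']
    · intro B hB
      rw [isBasisOf_iff M _ _ hsub] at hB
      refine ⟨M ／ (M.E \ Z), ?_, hcontr B hB, ?_⟩
      · rw [contract_ground, sdiff_sdiff_cancel_left hZ]
      · rcases hfin with h | h
        · left
          infer_instance
        · right
          rw [dual_contract]
          infer_instance
  · rintro W I ⟨M, rfl, rfl, hfin⟩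
    rw [dual_eq]
    refine ⟨⟨M✶, rfl, rfl, ?_⟩, ?_⟩
    · rw [dual_dual]
      exact hfin.symm
    · have h := dual_eq M✶
      rw [dual_dual, dual_ground] at h
      exact h

theorem sys_indepSpace (W : Set S) (I : Set (Set S)) (hI : IsIndepSpace W I) : I ∈ sys W := by
  obtain ⟨⟨hsub, hempty, hdown, haug⟩, hfc⟩ := hI
  let M : IndepMatroid S := IndepMatroid.ofFinitaryCardAugment W (fun X => X ∈ I) hempty
    (fun X Y hY hXY => hdown Y hY X hXY)
    (fun X Y hX hXf hY hYf hlt => by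
      obtain ⟨e, he, h⟩ := haug X hX Y hY hXf hYf hlt
      exact ⟨e, he.1, he.2, h⟩)
    (fun X hX => by
      refine hfc X ?_ hX
      intro x hx
      exact hsub _ (hX {x} (singleton_subset_iff.2 hx) (finite_singleton x)) rfl)
    hsub
  have hfinM : M.matroid.Finitary :=
    ⟨fun X hX => by
      refine hfc X ?_ hX
      intro x hx
      exact hsub _ (hX {x} (singleton_subset_iff.2 hx) (finite_singleton x)) rfl⟩
  exact ⟨M.matroid, rfl, rfl, Or.inl hfinM⟩

theorem isBMatroid (M : Matroid S) : IsBMatroid M.E {X | M.Indep X} := by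
  refine ⟨fun X hX => Indep.subset_ground hX, M.empty_indep, fun X hX Y hY => Indep.subset hX hY,
    ?_⟩
  intro X hX
  have hmax : ∀ B, B ∈ maxIn {X | M.Indep X} X ↔ M.IsBasis B X := by
    intro B
    exact isBasisOf_iff M X B hX
  refine ⟨?_, ?_⟩
  · intro T hT hTX
    obtain ⟨B, hB, hTB⟩ := Indep.subset_isBasis_of_subset hT hTX
    exact ⟨B, (hmax B).2 hB, hTB⟩
  · intro B₁ h₁ B₂ h₂ x hx
    rw [hmax] at h₁ h₂
    have h₁' := h₁.isBase_restrict
    have h₂' := h₂.isBase_restrict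
    obtain ⟨y, hy, h⟩ := h₁'.exchange h₂' hx
    refine ⟨y, hy, ?_⟩
    rw [hmax, union_singleton]
    exact (isBase_restrict_iff hX).1 h

/-- Rank one uniform matroid on `A`. -/
def lineOn (A : Set S) : Matroid S := (Matroid.freeOn (univ : Set Unit)).comapOn A (fun _ => ())

theorem lineOn_indep (A X : Set S) : (lineOn A).Indep X ↔ X.Subsingleton ∧ X ⊆ A := by
  unfold lineOn
  rw [comapOn_indep_iff]
  constructor
  · rintro ⟨-, h1, h2⟩
    exact ⟨fun x hx y hy => h1 hx hy rfl, h2⟩
  · rintro ⟨h1, h2⟩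
    refine ⟨by rw [freeOn_indep_iff]; exact subset_univ _, fun x hx y hy _ => h1 hx hy, h2⟩

theorem lineOn_ground (A : Set S) : (lineOn A).E = A := rfl

/-- The sum of a rank one uniform matroid on `A` and the dual of a rank one uniform matroid on the
complement. -/
def mix (A : Set S) : Matroid S :=
  (lineOn A).disjointSum (lineOn Aᶜ)✶ (by
    rw [dual_ground, lineOn_ground, lineOn_ground]; exact disjoint_compl_right)

theorem mix_ground (A : Set S) : (mix A).E = univ := by
  unfold mix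
  rw [disjointSum_ground_eq, dual_ground, lineOn_ground, lineOn_ground, union_compl_self]

theorem lineOn_isBase {A X : Set S} (hA : A.Nonempty) :
    (lineOn A).IsBase X ↔ ∃ a ∈ A, X = {a} := by
  rw [isBase_iff_maximal_indep]
  constructor
  · intro h
    obtain ⟨a, ha⟩ := hA
    have h1 := (lineOn_indep A X).1 h.prop
    rcases X.eq_empty_or_nonempty with rfl | ⟨x, hx⟩
    · have h2 : (lineOn A).Indep {a} :=
        (lineOn_indep A _).2 ⟨subsingleton_singleton, singleton_subset_iff.2 ha⟩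
      have h3 := h.2 h2 (empty_subset _)
      exact absurd (h3 rfl) (notMem_empty a)
    · exact ⟨x, h1.2 hx, h1.1.eq_singleton_of_mem hx⟩
  · rintro ⟨a, ha, rfl⟩
    refine ⟨(lineOn_indep A _).2 ⟨subsingleton_singleton, singleton_subset_iff.2 ha⟩, ?_⟩
    intro Y hY hle
    rw [lineOn_indep] at hY
    intro y hy
    exact hY.1 hy (hle rfl)

theorem mix_indep {A : Set S} (hAc : Aᶜ.Nonempty) (X : Set S) :
    (mix A).Indep X ↔ (X ∩ A).Subsingleton ∧ ∃ b ∉ A, b ∉ X := by
  unfold mix
  rw [disjointSum_indep_iff, dual_ground, lineOn_ground, lineOn_ground, union_compl_self,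
    and_iff_left (subset_univ _), lineOn_indep, and_iff_left inter_subset_right,
    dual_indep_iff_exists' ]
  refine and_congr_right fun _ => ?_
  rw [lineOn_ground, and_iff_right inter_subset_right]
  constructor
  · rintro ⟨B, hB, hd⟩
    obtain ⟨b, hb, rfl⟩ := (lineOn_isBase hAc).1 hB
    refine ⟨b, hb, fun hbX => ?_⟩
    exact (Set.disjoint_left.1 hd) ⟨hbX, hb⟩ rfl
  · rintro ⟨b, hb, hbX⟩
    refine ⟨{b}, (lineOn_isBase hAc).2 ⟨b, hb, rfl⟩, ?_⟩
    rw [Set.disjoint_singleton_right]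
    exact fun h => hbX h.1

theorem mix_not_finitary {A : Set S} (hAc : Aᶜ.Infinite) : ¬ (mix A).Finitary := by
  intro h
  have h1 : (mix A).Indep Aᶜ := by
    apply indep_of_forall_finite_subset_indep
    intro J hJ hJf
    rw [mix_indep hAc.nonempty]
    refine ⟨fun x hx => absurd hx.2 (hJ hx.1), ?_⟩
    obtain ⟨b, hb, hbJ⟩ := (hAc.sdiff hJf).nonempty
    exact ⟨b, hb, hbJ⟩
  rw [mix_indep hAc.nonempty] at h1
  obtain ⟨-, b, hb, hb'⟩ := h1
  exact hb' hb

theorem mix_dual_not_finitary {A : Set S} (hA : A.Infinite) (hAc : Aᶜ.Nonempty) :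
    ¬ (mix A)✶.Finitary := by
  intro h
  have h1 : (mix A)✶.Indep A := by
    apply indep_of_forall_finite_subset_indep
    intro J hJ hJf
    rw [dual_indep_iff_exists']
    refine ⟨by rw [mix_ground]; exact subset_univ _, ?_⟩
    obtain ⟨a, ha, haJ⟩ := (hA.sdiff hJf).nonempty
    have h2 : (mix A).Indep {a} := by
      rw [mix_indep hAc]
      refine ⟨subsingleton_singleton.anti inter_subset_left, ?_⟩
      obtain ⟨b, hb⟩ := hAc
      exact ⟨b, hb, fun hba => hb (hba ▸ ha)⟩
    obtain ⟨B, hB, haB⟩ := h2.exists_isBase_superset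
    refine ⟨B, hB, ?_⟩
    rw [Set.disjoint_left]
    intro x hxJ hxB
    have h3 := ((mix_indep hAc B).1 hB.indep).1
    have h4 : x = a := h3 ⟨hxB, hJ hxJ⟩ ⟨haB rfl, ha⟩
    exact haJ (h4 ▸ hxJ)
  rw [dual_indep_iff_exists'] at h1
  obtain ⟨-, B, hB, hd⟩ := h1
  obtain ⟨a, ha⟩ := hA.nonempty
  have h5 : (mix A).Indep (insert a B) := by
    rw [mix_indep hAc]
    obtain ⟨-, b, hb, hbB⟩ := (mix_indep hAc B).1 hB.indep
    refine ⟨?_, b, hb, ?_⟩
    · rintro x ⟨hx, hxA⟩ y ⟨hy, hyA⟩
      rcases hx with rfl | hx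
      · rcases hy with rfl | hy
        · rfl
        · exact absurd hy (Set.disjoint_left.1 hd hyA)
      · exact absurd hx (Set.disjoint_left.1 hd hxA)
    · rintro (rfl | h)
      · exact hb ha
      · exact hbB h
  have h6 := hB.eq_of_subset_indep h5 (subset_insert a B)
  have h7 : a ∈ B := h6 ▸ mem_insert a B
  exact (Set.disjoint_left.1 hd) ha h7

theorem exists_split (S : Type u) [Infinite S] : ∃ A : Set S, A.Infinite ∧ Aᶜ.Infinite := by
  let f := Infinite.natEmbedding S
  refine ⟨range (fun n => f (2 * n)), ?_, ?_⟩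
  · apply infinite_range_of_injective
    intro a b h
    have := f.injective h
    omega
  · have h1 : (range (fun n => f (2 * n + 1))).Infinite := by
      apply infinite_range_of_injective
      intro a b h
      have := f.injective h
      omega
    refine h1.mono ?_
    rintro _ ⟨n, rfl⟩ ⟨m, hm⟩
    have := f.injective hm
    omega

/-- **Negative answer.** For every infinite set `S` there is an admissible system `D` in which
every `D W` contains all independence spaces on `W`, and a B-matroid on some `W ⊆ S` (in fact on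
`W = S`) which is not in `D W`. -/
theorem result (S : Type u) [Infinite S] :
    ∃ D : Set S → Set (Set (Set S)), IsAdmissible D ∧
      (∀ (W : Set S) (I : Set (Set S)), IsIndepSpace W I → I ∈ D W) ∧
      ∃ (W : Set S) (I : Set (Set S)), IsBMatroid W I ∧ I ∉ D W := by
  refine ⟨sys, sys_admissible, sys_indepSpace, ?_⟩
  obtain ⟨A, hA, hAc⟩ := exists_split S
  refine ⟨univ, {X | (mix A).Indep X}, ?_, ?_⟩
  · have := isBMatroid (mix A)
    rwa [mix_ground] at this
  · rintro ⟨M, hE, hI, hfin⟩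
    have hM : M = mix A := by
      refine Matroid.ext_indep (hE.trans (mix_ground A).symm) ?_
      intro X _
      have h1 : X ∈ {X | M.Indep X} ↔ X ∈ {X | (mix A).Indep X} := by rw [hI]
      exact h1
    subst hM
    rcases hfin with h | h
    · exact mix_not_finitary hAc h
    · exact mix_dual_not_finitary hA hAc.nonempty h

end Pool.Agent.Results.MP_cb2a9f_co.FinitaryOrCofinitary
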